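import Pool.Agent.U958.FV.Final

/-!
# Every nonshortcutting filling of a round sphere has at least two fifths of the volume of the hemisphere

The scheme is that of the starting result `OneFifth` (constant `1/5`).  For a point of the cone over
the filling `M` of `S^d` let `u_G = R |G| cos d(G/|G|, q)`, `G ∈ ℝ^n`, `n = d + 1`; for `η ∈ ℝ^n`,
`g` standard Gaussian in `ℝ^n` and `κ` independent with density `8/(3π) (1+κ²)^(-3)` put
`T_η = E[u_{g+κη} g] - η` and `S_η = (R²+|η|²)/6 - E[κ u_{g+κη}]`.  The maps `(S_η, T_η)` cover the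
region above the paraboloid `s = |τ|²/6` and have Jacobian at most `3^(-1/2) exp(S_η - 1/2)`.

What is new is the analysis for a fixed point of the cone.  Let `A - 1` be the derivative of
`η ↦ T_η`.

* The Hilbert-Schmidt norm of `A` is at most `√(4 S / 3)` (the weight `1 + κ²` in the inequality of
  Cauchy and Schwarz; before: `√(8 S / 3)`).
* `|det (A - 1)| exp (tr A) ≥ (1 - a) exp a`, `a = √(4 S / 3)`, the optimal bound in terms of the
  Hilbert-Schmidt norm.
* `η ↦ T_η` is injective on `{S_η ≤ 1/2}` (before: `{S_η ≤ 27/200}`).  For two shifts `η₁`, `η₂` of the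
  Gaussian measure, densities `p₁`, `p₂` at a fixed `κ`, and the gradient `V` of `u` the difference
  `∫ V (p₂ - p₁)` is estimated by an exact Lagrange multiplier argument: for every real `l`
  `2 l ⟨∫ V (p₂ - p₁), Δ⟩ ≤ ∫ |V - η₁|² p₁ + ∫ |V - η₂|² p₂ + (l + 1/2)² |Δ|² (2 - 2 ρ²) - |Δ|²/2`,
  `Δ = η₂ - η₁`, `ρ = ∫ √(p₁ p₂)`; with the multiplier `l / (1 + κ²)` and integration over `κ` the
  injectivity follows from `6 M₀² + y M₁ > 4`, `M₀ = E exp(-y κ²)`, `M₁ = E (1+κ²) exp(-y κ²)`, `y > 0`.
* So the weight can be `exp(-4 s) (1 - 4 s/5 - 31 s²/40)` on `[0, 1/2]` in place of `exp(-20 s/3)` on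
  `[0, 27/200]`.
-/

set_option autoImplicit false

open MeasureTheory

namespace Pool.Agent.Results.MP_aeade1_gt.TwoFifths

open Pool.Agent.H241R3.FV

/-- For every `d ≥ 1`, every compact triangulated nonshortcutting filling of the round sphere `S^d`,
orientable or not and of any topology, has volume at least two fifths of the volume
`vol(S^(d+1)) / 2` of the round hemisphere. -/
theorem result (d : ℕ) (hd : 1 ≤ d) (M : Type) [MetricSpace M] [CompactSpace M] (S : Fill d M)
    (hS : S.NonShort) (hT : S.Triangulated) :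
    ENNReal.ofReal (2 / 5) *
      ((volume : Measure (EuclideanSpace ℝ (Fin (d + 2)))).toSphere Set.univ / 2) ≤ S.vol := by
  have h := Pool.Agent.U958.FV.final2 d hd M S hS hT
  refine le_trans (le_of_eq ?_) h
  rw [ENNReal.div_eq_inv_mul, ← mul_assoc]
  congr 1
  rw [show (1 / 5 : ℝ) = 2 / 5 * (1 / 2) by norm_num, ENNReal.ofReal_mul (by norm_num)]
  congr 1
  rw [one_div, ENNReal.ofReal_inv_of_pos (by norm_num)]
  norm_num

end Pool.Agent.Results.MP_aeade1_gt.TwoFifths
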